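import Pool.Agent.H18.CGR.Stmts

/-!
Board cgr, row SHL: multiplication by the letters.
-/

set_option autoImplicit false

noncomputable section

namespace Pool.CGR

namespace SHL

theorem norm_bb {m : ℕ} (w : List (Fin m)) : ‖(bb w : E1 m)‖ = 1 := by
  unfold bb
  rw [lp.norm_single (by norm_num)]
  exact norm_one

theorem norm_smul_bb {m : ℕ} (w : List (Fin m)) : ‖((5 / 2 : ℂ) • bb w : E1 m)‖ ≤ 5 / 2 := by
  rw [norm_smul, norm_bb, mul_one]
  norm_num

end SHL

theorem shl_thm (hLIF : LIFStmt) (hEXT : EXTStmt) : SHLStmt := by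
  intro m
  choose X hX1 hX2 hX3 using fun i : Fin m =>
    hLIF m (E1 m) (fun w => (5 / 2 : ℂ) • bb (i :: w)) (5 / 2) (by norm_num)
      (fun w => SHL.norm_smul_bb _)
  choose Y hY1 hY2 hY3 using fun i : Fin m =>
    hLIF m (E1 m) (fun w => (5 / 2 : ℂ) • bb (w ++ [i])) (5 / 2) (by norm_num)
      (fun w => SHL.norm_smul_bb _)
  refine ⟨X, Y, hX2, hY2, hX1, hY1, fun i j f => ?_⟩
  have h : (X i).comp (Y j) = (Y j).comp (X i) := by
    apply hEXT m (E1 m)
    intro w
    rw [ContinuousLinearMap.comp_apply, ContinuousLinearMap.comp_apply, hY1, hX1, map_smul,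
      map_smul, hX1, hY1]
    rfl
  exact congrArg (fun L : E1 m →L[ℂ] E1 m => L f) h

end Pool.CGR
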